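import Pool.Agent.V1173.Ext.Flow

/-!
# The flow: estimates

Helper file for `MP_2eb075_an`.
-/

open Complex Set Filter Topology Metric

namespace Pool.Agent.V1173.Ext

theorem exp_diff {lam t : ℝ} (h1 : 1 ≤ lam) (h2 : lam < 2) (ht : 0 ≤ t) :
    0 ≤ Real.exp (-(lam * t)) - Real.exp (-t) ^ 2 ∧
      Real.exp (-(lam * t)) - Real.exp (-t) ^ 2 ≤ 2 - lam := by
  have e : Real.exp (-t) ^ 2 = Real.exp (-(lam * t)) * Real.exp (-((2 - lam) * t)) := by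
    rw [← Real.exp_nat_mul, ← Real.exp_add]
    congr 1
    push_cast
    ring
  have h3 : Real.exp (-((2 - lam) * t)) ≤ 1 := by
    rw [Real.exp_le_one_iff]
    nlinarith
  have h4 : 1 - (2 - lam) * t ≤ Real.exp (-((2 - lam) * t)) := by
    have := Real.add_one_le_exp (-((2 - lam) * t))
    linarith
  have h5 := Real.exp_pos (-(lam * t))
  constructor
  · rw [e]
    nlinarith
  · rw [e]
    have h6 : Real.exp (-(lam * t)) * t ≤ 1 := by
      have h7 : Real.exp (-(lam * t)) ≤ Real.exp (-t) := by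
        apply Real.exp_le_exp.2
        nlinarith
      have h8 : Real.exp (-t) * t ≤ 1 := by
        have h9 := Real.add_one_le_exp t
        have h10 : Real.exp (-t) * Real.exp t = 1 := by rw [← Real.exp_add]; simp
        have h11 := Real.exp_pos (-t)
        nlinarith
      nlinarith
    have h7 : Real.exp (-(lam * t)) * (1 - Real.exp (-((2 - lam) * t))) ≤
        Real.exp (-(lam * t)) * ((2 - lam) * t) := by
      apply mul_le_mul_of_nonneg_left _ h5.le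
      linarith
    nlinarith

namespace Par

variable {x lam a κ d : ℝ} (P : Par x lam a κ d)
include P

theorem pc_norm {ε : ℝ} (hε : |ε| ≤ 1 / 1000) {z w : ℂ} (h : ‖z‖ ^ 2 + ‖w‖ ^ 2 ≤ 1) :
    ‖pc ε (z - κ * w ^ 2)‖ ≤ 5 / 2 := by
  have hu := P.u_le h
  obtain ⟨u, hud⟩ : ∃ u : ℂ, u = z - κ * w ^ 2 := ⟨_, rfl⟩
  rw [← hud] at hu ⊢
  unfold pc
  refine (norm_add_le _ _).trans ?_
  rw [norm_mul, norm_pow, Complex.norm_real, Real.norm_eq_abs]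
  have h1 : ‖u‖ ^ 3 ≤ 2 ^ 3 := pow_le_pow_left₀ (norm_nonneg _) hu 3
  have h5 : 0 ≤ |ε| := abs_nonneg ε
  nlinarith [pow_nonneg (norm_nonneg u) 3]

theorem WW_norm {ε : ℝ} (hε : |ε| ≤ 1 / 1000) {z w : ℂ} (h : ‖z‖ ^ 2 + ‖w‖ ^ 2 ≤ 1) {t : ℝ}
    (ht : 0 ≤ t) : ‖WW lam (d / (2 - lam)) ε κ z w t‖ < 8 := by
  have h2 : 0 < 2 - lam := by have := P.lt_two; linarith
  have h3 := P.d_lt
  have h4 := P.d_pos
  have hw : ‖w‖ ^ 2 ≤ 1 := by nlinarith [sq_nonneg ‖z‖]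
  obtain ⟨g1, g2⟩ := exp_diff P.one_le P.lt_two ht
  have e : WW lam (d / (2 - lam)) ε κ z w t = (Real.exp (-(lam * t)) : ℝ) * pc ε (z - κ * w ^ 2) +
      ((d / (2 - lam) * (Real.exp (-(lam * t)) - Real.exp (-t) ^ 2) : ℝ) : ℂ) * w ^ 2 := by
    unfold WW V2
    push_cast
    ring
  rw [e]
  refine (norm_add_le _ _).trans_lt ?_
  rw [norm_mul, norm_mul, norm_pow, Complex.norm_real, Complex.norm_real, Real.norm_eq_abs,
    Real.norm_eq_abs, abs_of_pos (Real.exp_pos _), abs_of_nonneg (by positivity)]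
  have h5 := P.pc_norm hε h
  have h6 : Real.exp (-(lam * t)) ≤ 1 := by
    rw [Real.exp_le_one_iff]
    have := P.one_le
    nlinarith
  have h7 : d / (2 - lam) * (Real.exp (-(lam * t)) - Real.exp (-t) ^ 2) ≤ d := by
    have h8 : d / (2 - lam) * (Real.exp (-(lam * t)) - Real.exp (-t) ^ 2) ≤
        d / (2 - lam) * (2 - lam) := mul_le_mul_of_nonneg_left g2 (by positivity)
    rwa [div_mul_cancel₀ _ h2.ne'] at h8
  have h9 : Real.exp (-(lam * t)) * ‖pc ε (z - κ * w ^ 2)‖ ≤ 1 * (5 / 2) :=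
    mul_le_mul h6 h5 (norm_nonneg _) zero_le_one
  have h10 : d / (2 - lam) * (Real.exp (-(lam * t)) - Real.exp (-t) ^ 2) * ‖w‖ ^ 2 ≤ d * 1 :=
    mul_le_mul h7 hw (sq_nonneg _) h4.le
  linarith

theorem V1_zero {ε : ℝ} (hε : |ε| ≤ 1 / 1000) {z w : ℂ} (h : ‖z‖ ^ 2 + ‖w‖ ^ 2 ≤ 1) :
    V1 lam (d / (2 - lam)) ε κ z w 0 = z := by
  unfold V1
  rw [WW_zero, V2_zero, qc_pc hε ((P.u_le h).trans (by norm_num))
    ((P.pc_norm hε h).trans (by norm_num))]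
  ring

theorem V1_hasDerivAt {ε : ℝ} (hε : |ε| ≤ 1 / 1000) {z w : ℂ} (h : ‖z‖ ^ 2 + ‖w‖ ^ 2 ≤ 1) {t : ℝ}
    (ht : 0 ≤ t) : HasDerivAt (V1 lam (d / (2 - lam)) ε κ z w)
      (-(H1 lam a κ d ε (V1 lam (d / (2 - lam)) ε κ z w t) (V2 w t))) t := by
  have h2 : 2 - lam ≠ 0 := by have := P.lt_two; linarith
  have hW := P.WW_norm hε h ht
  have h1 := qc_hasDerivAt hε hW
  have h3 := (h1.scomp t (WW_hasDerivAt lam (d / (2 - lam)) ε κ z w t))
  have h4 := ((V2_hasDerivAt w t).pow 2).const_mul (κ : ℂ)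
  have h5 := h3.add h4
  refine h5.congr_deriv ?_
  obtain ⟨g1, g2⟩ := qc_spec hε hW.le
  have g3 := pd_ne hε g1
  obtain ⟨u, hu⟩ : ∃ u : ℂ, u = qc ε (WW lam (d / (2 - lam)) ε κ z w t) := ⟨_, rfl⟩
  obtain ⟨v, hv⟩ : ∃ v : ℂ, v = V2 w t := ⟨_, rfl⟩
  obtain ⟨W, hWd⟩ : ∃ W : ℂ, W = WW lam (d / (2 - lam)) ε κ z w t := ⟨_, rfl⟩
  have e1 : V1 lam (d / (2 - lam)) ε κ z w t = u + κ * v ^ 2 := by
    rw [hu, hv]
    rfl
  rw [e1]
  rw [← hWd] at g1 g2 g3 hu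
  rw [← hWd, ← hu, ← hv]
  rw [← hu] at g2 g3
  have g4 : (1 + 3 * (ε : ℂ) * u ^ 2) ≠ 0 := by
    intro h0
    rw [h0, norm_zero] at g3
    linarith
  have g5 : (2 - lam) * (d / (2 - lam)) = d := by field_simp
  rw [g5]
  have g6 : W = u + ε * u ^ 3 := by rw [← g2]; rfl
  have g7 : (d : ℂ) = (2 - lam) * κ + a := by
    rw [P.eq_d]
    push_cast
    ring
  obtain ⟨i, hi⟩ : ∃ i : ℂ, i = (1 + 3 * (ε : ℂ) * u ^ 2)⁻¹ := ⟨_, rfl⟩
  have hi' : (1 + 3 * (ε : ℂ) * u ^ 2) * i = 1 := by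
    rw [hi, mul_inv_cancel₀ g4]
  unfold H1
  rw [show u + (κ : ℂ) * v ^ 2 - κ * v ^ 2 = u by ring, smul_eq_mul, g6, div_eq_mul_inv, ← hi]
  push_cast
  linear_combination (-(lam : ℂ) * u + d * v ^ 2) * hi' + v ^ 2 * g7

/-- the flow stays in the ball -/
theorem flow_ball {ε : ℝ} (hε : |ε| ≤ 1 / 1000) {z w : ℂ} (h : ‖z‖ ^ 2 + ‖w‖ ^ 2 < 1) {t : ℝ}
    (ht : 0 ≤ t) : ‖V1 lam (d / (2 - lam)) ε κ z w t‖ ^ 2 + ‖V2 w t‖ ^ 2 ≤
      (1 + (‖z‖ ^ 2 + ‖w‖ ^ 2)) / 2 := by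
  set c := d / (2 - lam) with hc
  obtain ⟨ρ, hρ⟩ : ∃ ρ, ρ = (1 + (‖z‖ ^ 2 + ‖w‖ ^ 2)) / 2 := ⟨_, rfl⟩
  have hρ1 : ρ < 1 := by rw [hρ]; linarith
  have hρ0 : 0 < ρ := by rw [hρ]; positivity
  have hd : ∀ s : ℝ, 0 ≤ s → HasDerivAt
      (fun s => ‖V1 lam c ε κ z w s‖ ^ 2 + ‖V2 w s‖ ^ 2)
      (-2 * ((starRingEnd ℂ (V1 lam c ε κ z w s) *
        H1 lam a κ d ε (V1 lam c ε κ z w s) (V2 w s)).re + ‖V2 w s‖ ^ 2)) s := by
    intro s hs
    have h1 := (P.V1_hasDerivAt hε h.le hs).norm_sq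
    have h2 := (V2_hasDerivAt w s).norm_sq
    refine (h1.add h2).congr_deriv ?_
    rw [Complex.inner, Complex.inner]
    have e2 : (-(V2 w s) * starRingEnd ℂ (V2 w s)).re = -(‖V2 w s‖ ^ 2) := by
      rw [neg_mul, Complex.mul_conj, Complex.neg_re, Complex.ofReal_re, Complex.normSq_eq_norm_sq]
    have e3 : (-(H1 lam a κ d ε (V1 lam (d / (2 - lam)) ε κ z w s) (V2 w s)) *
        starRingEnd ℂ (V1 lam (d / (2 - lam)) ε κ z w s)).re =
        -((starRingEnd ℂ (V1 lam c ε κ z w s) *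
        H1 lam a κ d ε (V1 lam c ε κ z w s) (V2 w s)).re) := by
      rw [neg_mul, Complex.neg_re, mul_comm]
    rw [e2, e3]
    ring
  have hmain := image_le_of_deriv_right_lt_deriv_boundary'
    (f := fun s => ‖V1 lam c ε κ z w s‖ ^ 2 + ‖V2 w s‖ ^ 2)
    (f' := fun s => -2 * ((starRingEnd ℂ (V1 lam c ε κ z w s) *
        H1 lam a κ d ε (V1 lam c ε κ z w s) (V2 w s)).re + ‖V2 w s‖ ^ 2))
    (a := 0) (b := t) (B := fun _ => ρ) (B' := fun _ => 0)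
    (fun s hs => (hd s hs.1).continuousAt.continuousWithinAt)
    (fun s hs => (hd s hs.1).hasDerivWithinAt)
    (by
      rw [hc, P.V1_zero hε h.le, V2_zero, hρ]
      linarith)
    continuousOn_const
    (fun s hs => hasDerivWithinAt_const _ _ _)
    (by
      intro s hs hB'
      have hB : ‖V1 lam c ε κ z w s‖ ^ 2 + ‖V2 w s‖ ^ 2 = ρ := hB'
      have h0 : V1 lam c ε κ z w s ≠ 0 ∨ V2 w s ≠ 0 := by
        by_contra hcon
        push Not at hcon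
        rw [hcon.1, hcon.2, norm_zero] at hB
        linarith
      have := P.pos_form hε (by rw [hB]; exact hρ1) h0
      linarith)
  have := hmain ⟨ht, le_rfl⟩
  rw [← hρ]
  exact this

/-- the limit -/
theorem flow_lim {ε : ℝ} (hε : |ε| ≤ 1 / 1000) {z w : ℂ} (h : ‖z‖ ^ 2 + ‖w‖ ^ 2 ≤ 1) {t : ℝ}
    (ht : 0 ≤ t) : ‖(Real.exp (lam * t) : ℝ) * V1 lam (d / (2 - lam)) ε κ z w t -
      (pc ε (z - κ * w ^ 2) + (d / (2 - lam) : ℝ) * w ^ 2)‖ ≤
      (d / (2 - lam) + κ + 8 * (3 + 2 * (d / (2 - lam))) ^ 3) * Real.exp (-((2 - lam) * t)) := by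
  have h2 : 0 < 2 - lam := by have := P.lt_two; linarith
  have h1l := P.one_le
  have h4 := P.d_pos
  obtain ⟨c, hc⟩ : ∃ c, c = d / (2 - lam) := ⟨_, rfl⟩
  have hc0 : 0 < c := by rw [hc]; positivity
  have hκ := P.κ_pos
  have hW := P.WW_norm hε h ht
  have hpc := P.pc_norm hε h
  rw [← hc] at hW ⊢
  have hw : ‖w‖ ^ 2 ≤ 1 := by nlinarith [sq_nonneg ‖z‖]
  obtain ⟨g1, g2⟩ := qc_spec hε hW.le
  have g3 := qc_norm hε hW.le
  obtain ⟨U, hU⟩ : ∃ U : ℂ, U = qc ε (WW lam c ε κ z w t) := ⟨_, rfl⟩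
  rw [← hU] at g1 g2 g3
  obtain ⟨E, hE⟩ : ∃ E, E = Real.exp (-((2 - lam) * t)) := ⟨_, rfl⟩
  have hE0 : 0 < E := by rw [hE]; exact Real.exp_pos _
  obtain ⟨G, hG⟩ : ∃ G, G = Real.exp (lam * t) := ⟨_, rfl⟩
  have hG0 : 0 < G := by rw [hG]; exact Real.exp_pos _
  have hGW : (G : ℂ) * WW lam c ε κ z w t =
      (pc ε (z - κ * w ^ 2) + c * w ^ 2) - (E * c : ℝ) * w ^ 2 := by
    unfold WW V2
    have e1 : G * Real.exp (-(lam * t)) = 1 := by
      rw [hG, ← Real.exp_add]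
      simp
    have e2 : G * Real.exp (-t) ^ 2 = E := by
      rw [hG, hE, ← Real.exp_nat_mul, ← Real.exp_add]
      congr 1
      push_cast
      ring
    have e3 : (G : ℂ) * (Real.exp (-(lam * t)) : ℝ) = 1 := by
      rw [← Complex.ofReal_mul, e1, Complex.ofReal_one]
    have e4 : (G : ℂ) * ((Real.exp (-t) : ℝ) : ℂ) ^ 2 = (E : ℝ) := by
      rw [← Complex.ofReal_pow, ← Complex.ofReal_mul, e2]
    push_cast at e3 e4 ⊢
    linear_combination (pc ε (z - κ * w ^ 2) + c * w ^ 2) * e3 - c * w ^ 2 * e4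
  have hGV : (G : ℂ) * V2 w t ^ 2 = E * w ^ 2 := by
    unfold V2
    have e2 : G * Real.exp (-t) ^ 2 = E := by
      rw [hG, hE, ← Real.exp_nat_mul, ← Real.exp_add]
      congr 1
      push_cast
      ring
    have e4 : (G : ℂ) * ((Real.exp (-t) : ℝ) : ℂ) ^ 2 = (E : ℝ) := by
      rw [← Complex.ofReal_pow, ← Complex.ofReal_mul, e2]
    push_cast at e4 ⊢
    linear_combination w ^ 2 * e4
  have e : (G : ℂ) * V1 lam c ε κ z w t - (pc ε (z - κ * w ^ 2) + c * w ^ 2) =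
      -((E * c : ℝ) * w ^ 2) + ((κ * E : ℝ) : ℂ) * w ^ 2 - G * (ε * U ^ 3) := by
    have e5 : V1 lam c ε κ z w t = U + κ * V2 w t ^ 2 := by rw [hU]; rfl
    have e6 : U = WW lam c ε κ z w t - ε * U ^ 3 := by
      have : pc ε U = U + ε * U ^ 3 := rfl
      rw [← g2, this]
      ring
    rw [e5]
    have e7 : (G : ℂ) * U = (pc ε (z - κ * w ^ 2) + c * w ^ 2) - (E * c : ℝ) * w ^ 2 -
        G * (ε * U ^ 3) := by
      rw [← hGW]
      linear_combination (G : ℂ) * e6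
    push_cast at e7 ⊢
    linear_combination e7 + κ * hGV
  rw [← hG, ← hE, e]
  -- estimates
  have hWn : ‖WW lam c ε κ z w t‖ * G ≤ 3 + 2 * c := by
    have h5 : ‖(G : ℂ) * WW lam c ε κ z w t‖ ≤ 3 + 2 * c := by
      rw [hGW]
      have hE1 : E ≤ 1 := by
        rw [hE, Real.exp_le_one_iff]
        nlinarith
      refine (norm_sub_le _ _).trans ?_
      have h6 : ‖pc ε (z - κ * w ^ 2) + c * w ^ 2‖ ≤ 3 + c := by
        refine (norm_add_le _ _).trans ?_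
        rw [norm_mul, norm_pow, Complex.norm_real, Real.norm_eq_abs, abs_of_pos hc0]
        nlinarith
      have h7 : ‖((E * c : ℝ) : ℂ) * w ^ 2‖ ≤ c := by
        rw [norm_mul, norm_pow, Complex.norm_real, Real.norm_eq_abs, abs_of_pos (by positivity)]
        have h8 : E * c ≤ c := by nlinarith
        have h9 : E * c * ‖w‖ ^ 2 ≤ c * 1 := mul_le_mul h8 hw (sq_nonneg _) hc0.le
        linarith
      linarith
    rw [norm_mul, Complex.norm_real, Real.norm_eq_abs, abs_of_pos hG0] at h5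
    linarith
  have hUG : ‖U‖ * G ≤ 2 * (3 + 2 * c) := by nlinarith
  have hU3 : ‖(G : ℂ) * (ε * U ^ 3)‖ ≤ 8 * (3 + 2 * c) ^ 3 * E := by
    rw [norm_mul, norm_mul, norm_pow, Complex.norm_real, Complex.norm_real, Real.norm_eq_abs,
      Real.norm_eq_abs, abs_of_pos hG0]
    have h5 : (‖U‖ * G) ^ 3 ≤ (2 * (3 + 2 * c)) ^ 3 := pow_le_pow_left₀ (by positivity) hUG 3
    have h6 : (1 : ℝ) ≤ G ^ 2 * E := by
      have h7 : G ^ 2 * E = Real.exp ((3 * lam - 2) * t) := by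
        rw [hG, hE, ← Real.exp_nat_mul, ← Real.exp_add]
        congr 1
        push_cast
        ring
      rw [h7]
      apply Real.one_le_exp
      nlinarith
    have h7 : |ε| ≤ 1 := by linarith
    have h8 : G * (|ε| * ‖U‖ ^ 3) ≤ G * ‖U‖ ^ 3 := by
      apply mul_le_mul_of_nonneg_left _ hG0.le
      have : 0 ≤ ‖U‖ ^ 3 := by positivity
      nlinarith
    have h9 : G * ‖U‖ ^ 3 ≤ (G * ‖U‖ ^ 3) * (G ^ 2 * E) := by
      have : 0 ≤ G * ‖U‖ ^ 3 := by positivity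
      nlinarith
    have h10 : (G * ‖U‖ ^ 3) * (G ^ 2 * E) = (‖U‖ * G) ^ 3 * E := by ring
    have h11 : (‖U‖ * G) ^ 3 * E ≤ (2 * (3 + 2 * c)) ^ 3 * E :=
      mul_le_mul_of_nonneg_right h5 hE0.le
    have h12 : (2 * (3 + 2 * c)) ^ 3 * E = 8 * (3 + 2 * c) ^ 3 * E := by ring
    linarith
  have hA : ‖((E * c : ℝ) : ℂ) * w ^ 2‖ ≤ c * E := by
    rw [norm_mul, norm_pow, Complex.norm_real, Real.norm_eq_abs, abs_of_pos (by positivity)]
    have h9 : E * c * ‖w‖ ^ 2 ≤ E * c * 1 := mul_le_mul_of_nonneg_left hw (by positivity)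
    linarith
  have hB : ‖((κ * E : ℝ) : ℂ) * w ^ 2‖ ≤ κ * E := by
    rw [norm_mul, norm_pow, Complex.norm_real, Real.norm_eq_abs, abs_of_pos (by positivity)]
    have h9 : κ * E * ‖w‖ ^ 2 ≤ κ * E * 1 := mul_le_mul_of_nonneg_left hw (by positivity)
    linarith
  refine (norm_sub_le _ _).trans ?_
  have h13 := norm_add_le (-(((E * c : ℝ) : ℂ) * w ^ 2)) (((κ * E : ℝ) : ℂ) * w ^ 2)
  rw [norm_neg] at h13
  linarith

end Par

end Pool.Agent.V1173.Ext
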