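import Mathlib

/-!
# The algebra of the extremal quadratic form

Helper file for `MP_2eb075_an`.
-/

open Complex

namespace Pool.Agent.V1173.Ext

/-- the relations between the parameters: `x` is the first coordinate of the touching point -/
structure Par (x lam a κ d : ℝ) : Prop where
  pos : 0 < x
  up : x ^ 2 ≤ 1 / 3
  low : 1 / 5 < x ^ 2
  eq_a : a * (x * (1 + x ^ 2)) = 2
  eq_κ : κ * (1 - x ^ 2) = x
  eq_lam : lam * (x ^ 2 * (1 + x ^ 2)) = (1 - x ^ 2) ^ 2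
  eq_d : d = (2 - lam) * κ + a
  one_le : 1 ≤ lam
  lt_two : lam < 2

namespace Par

variable {x lam a κ d : ℝ} (P : Par x lam a κ d)
include P

theorem x_lt : x < 7 / 12 := by
  have h1 := P.up
  have h2 := P.pos
  nlinarith

theorem x_gt : 2 / 5 < x := by
  have h1 := P.low
  have h2 := P.pos
  nlinarith

theorem a_eq : a = 2 / (x * (1 + x ^ 2)) := by
  have h2 := P.pos
  have h3 : x * (1 + x ^ 2) ≠ 0 := by positivity
  rw [eq_div_iff h3]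
  exact P.eq_a

theorem κ_eq : κ = x / (1 - x ^ 2) := by
  have h1 := P.up
  have h3 : (1 - x ^ 2) ≠ 0 := by nlinarith
  rw [eq_div_iff h3]
  exact P.eq_κ

theorem lam_eq : lam = (1 - x ^ 2) ^ 2 / (x ^ 2 * (1 + x ^ 2)) := by
  have h2 := P.pos
  have h3 : (x ^ 2 * (1 + x ^ 2)) ≠ 0 := by positivity
  rw [eq_div_iff h3]
  exact P.eq_lam

theorem κ_pos : 0 < κ := by
  rw [P.κ_eq]
  have h1 := P.up
  have h2 := P.pos
  apply div_pos h2
  nlinarith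

theorem κ_lt : κ < 7 / 8 := by
  rw [P.κ_eq]
  have h1 := P.up
  have h2 := P.pos
  have h3 := P.x_lt
  rw [div_lt_iff₀ (by nlinarith)]
  nlinarith

theorem a_pos : 0 < a := by
  rw [P.a_eq]
  have h2 := P.pos
  positivity

theorem a_lt : a < 25 / 6 := by
  rw [P.a_eq]
  have h2 := P.pos
  have h3 := P.x_gt
  have h4 := P.low
  rw [div_lt_iff₀ (by positivity)]
  nlinarith

theorem κ_lt_a : κ < a := by
  have h1 := P.κ_lt
  have h2 : 1 < a := by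
    rw [P.a_eq]
    have h2 := P.pos
    have h3 := P.x_lt
    have h4 := P.up
    rw [lt_div_iff₀ (by positivity)]
    nlinarith
  linarith

theorem d_lt : d < 21 / 4 := by
  have h1 := P.κ_lt
  have h2 := P.a_lt
  have h3 := P.κ_pos
  have h4 := P.one_le
  have h5 := P.lt_two
  rw [P.eq_d]
  nlinarith

theorem d_pos : 0 < d := by
  have h2 := P.a_pos
  have h3 := P.κ_pos
  have h5 := P.lt_two
  rw [P.eq_d]
  nlinarith

/-- on the sphere -/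
theorem sphere (s : ℝ) (hs : 0 ≤ s) (hs1 : s ≤ 1) :
    0 ≤ (lam - 1 / 2) * s ^ 2 + (1 - s ^ 2) - 1 / 2 * κ ^ 2 * (1 - s ^ 2) ^ 2 -
      (a - κ) * s * (1 - s ^ 2) := by
  have h2 := P.pos
  have h1 := P.up
  have hx1 : 0 < 1 - x ^ 2 := by nlinarith
  have h3 := P.x_lt
  have e : (lam - 1 / 2) * s ^ 2 + (1 - s ^ 2) - 1 / 2 * κ ^ 2 * (1 - s ^ 2) ^ 2 -
      (a - κ) * s * (1 - s ^ 2) =
      (s - x) ^ 2 * ((2 * x * s + 1 + x ^ 2) / (x ^ 2 * (1 + x ^ 2)) -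
        1 / 2 * (x * s + 1) ^ 2 / (1 - x ^ 2) ^ 2) := by
    rw [P.lam_eq, P.κ_eq, P.a_eq]
    have h4 : x ≠ 0 := h2.ne'
    have h5 : 1 - x ^ 2 ≠ 0 := hx1.ne'
    have h6 : 1 + x ^ 2 ≠ 0 := by positivity
    field_simp
    ring
  rw [e]
  apply mul_nonneg (sq_nonneg _)
  have e1 : 1 / x ^ 2 ≤ (2 * x * s + 1 + x ^ 2) / (x ^ 2 * (1 + x ^ 2)) := by
    rw [div_le_div_iff₀ (by positivity) (by positivity)]
    have : 0 ≤ x * s := by positivity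
    have h7 : 0 ≤ x ^ 2 := sq_nonneg x
    nlinarith [mul_nonneg h7 this]
  have e2 : 1 / 2 * (x * s + 1) ^ 2 / (1 - x ^ 2) ^ 2 ≤ 1 / x ^ 2 := by
    rw [div_le_div_iff₀ (by positivity) (by positivity)]
    have h8 : x * s + 1 ≤ x + 1 := by nlinarith
    have h9 : 0 ≤ x * s + 1 := by positivity
    have h10 : (x * s + 1) ^ 2 ≤ (x + 1) ^ 2 := pow_le_pow_left₀ h9 h8 2
    have h11 : x ^ 2 ≤ 2 * (1 - x) ^ 2 := by nlinarith
    have h12 : (1 - x ^ 2) ^ 2 = (1 - x) ^ 2 * (x + 1) ^ 2 := by ring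
    rw [h12]
    have h13 : 0 ≤ x ^ 2 := sq_nonneg x
    have h14 : (x * s + 1) ^ 2 * x ^ 2 ≤ (x + 1) ^ 2 * x ^ 2 := mul_le_mul_of_nonneg_right h10 h13
    have h15 : (x + 1) ^ 2 * x ^ 2 ≤ (x + 1) ^ 2 * (2 * (1 - x) ^ 2) :=
      mul_le_mul_of_nonneg_left h11 (sq_nonneg _)
    nlinarith
  linarith

/-- in the ball -/
theorem ball_ineq (s m : ℝ) (hs : 0 ≤ s) (hm : 0 ≤ m) (hsm : s ^ 2 + m ≤ 1) :
    0 ≤ (lam - 1 / 2) * s ^ 2 + m - 1 / 2 * κ ^ 2 * m ^ 2 - (a - κ) * s * m := by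
  have hl := P.one_le
  have hs1 : s ≤ 1 := by nlinarith
  have h0 := P.sphere s hs hs1
  obtain ⟨M, hM⟩ : ∃ M, M = 1 - s ^ 2 := ⟨_, rfl⟩
  rw [← hM] at h0
  have hmM : m ≤ M := by linarith
  have hα : 0 ≤ (lam - 1 / 2) * s ^ 2 := by
    apply mul_nonneg _ (sq_nonneg s)
    linarith
  rcases eq_or_lt_of_le (hm.trans hmM) with h | h
  · have : m = 0 := by linarith
    rw [this]
    linarith
  · have e : M * ((lam - 1 / 2) * s ^ 2 + m - 1 / 2 * κ ^ 2 * m ^ 2 - (a - κ) * s * m) =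
        (M - m) * ((lam - 1 / 2) * s ^ 2) +
        m * ((lam - 1 / 2) * s ^ 2 + M - 1 / 2 * κ ^ 2 * M ^ 2 - (a - κ) * s * M) +
        1 / 2 * κ ^ 2 * m * M * (M - m) := by ring
    have h1 : 0 ≤ M * ((lam - 1 / 2) * s ^ 2 + m - 1 / 2 * κ ^ 2 * m ^ 2 - (a - κ) * s * m) := by
      rw [e]
      have h2 : 0 ≤ (M - m) * ((lam - 1 / 2) * s ^ 2) := mul_nonneg (by linarith) hα
      have h3 := mul_nonneg hm h0
      have h4 : 0 ≤ 1 / 2 * κ ^ 2 * m * M * (M - m) := by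
        apply mul_nonneg _ (by linarith)
        positivity
      linarith
    exact nonneg_of_mul_nonneg_right h1 h

/-- **The key inequality.** -/
theorem key (z w : ℂ) (h : ‖z‖ ^ 2 + ‖w‖ ^ 2 ≤ 1) :
    1 / 2 * ‖z - κ * w ^ 2‖ ^ 2 ≤
      lam * ‖z‖ ^ 2 + ‖w‖ ^ 2 - a * (starRingEnd ℂ z * w ^ 2).re := by
  have h0 := P.ball_ineq ‖z‖ (‖w‖ ^ 2) (norm_nonneg _) (sq_nonneg _) h
  have h1 : (starRingEnd ℂ z * w ^ 2).re ≤ ‖z‖ * ‖w‖ ^ 2 := by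
    refine (Complex.re_le_norm _).trans (le_of_eq ?_)
    rw [norm_mul, norm_pow, RCLike.norm_conj]
  have h2 : ‖z - κ * w ^ 2‖ ^ 2 =
      ‖z‖ ^ 2 - 2 * κ * (starRingEnd ℂ z * w ^ 2).re + κ ^ 2 * (‖w‖ ^ 2) ^ 2 := by
    rw [← Complex.normSq_eq_norm_sq, Complex.normSq_sub, Complex.normSq_eq_norm_sq,
      Complex.normSq_eq_norm_sq]
    have h3 : ‖(κ : ℂ) * w ^ 2‖ ^ 2 = κ ^ 2 * (‖w‖ ^ 2) ^ 2 := by
      rw [norm_mul, norm_pow, Complex.norm_real, mul_pow, Real.norm_eq_abs, sq_abs]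
    have h4 : (z * starRingEnd ℂ ((κ : ℂ) * w ^ 2)).re = κ * (starRingEnd ℂ z * w ^ 2).re := by
      rw [map_mul, Complex.conj_ofReal]
      have h5 : (starRingEnd ℂ z * w ^ 2).re = (z * starRingEnd ℂ (w ^ 2)).re := by
        rw [← Complex.conj_re (z * starRingEnd ℂ (w ^ 2)), map_mul, Complex.conj_conj]
      rw [h5, ← mul_assoc, mul_comm z, mul_assoc, Complex.re_ofReal_mul]
    rw [h3, h4]
    ring
  rw [h2]
  have h5 := P.κ_lt_a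
  have h6 : (a - κ) * (starRingEnd ℂ z * w ^ 2).re ≤ (a - κ) * (‖z‖ * ‖w‖ ^ 2) :=
    mul_le_mul_of_nonneg_left h1 (by linarith)
  nlinarith

/-- the form on the curve of the touching points -/
theorem curve (w : ℂ) (h : ‖(κ : ℂ) * w ^ 2‖ ^ 2 + ‖w‖ ^ 2 < 1) (hw : w ≠ 0) :
    0 < lam * ‖(κ : ℂ) * w ^ 2‖ ^ 2 + ‖w‖ ^ 2 -
      a * (starRingEnd ℂ ((κ : ℂ) * w ^ 2) * w ^ 2).re := by
  have h3 : ‖(κ : ℂ) * w ^ 2‖ ^ 2 = κ ^ 2 * (‖w‖ ^ 2) ^ 2 := by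
    rw [norm_mul, norm_pow, Complex.norm_real, mul_pow, Real.norm_eq_abs, sq_abs]
  have h4 : (starRingEnd ℂ ((κ : ℂ) * w ^ 2) * w ^ 2).re = κ * (‖w‖ ^ 2) ^ 2 := by
    rw [map_mul, Complex.conj_ofReal, mul_assoc, Complex.re_ofReal_mul, mul_comm _ (w ^ 2),
      Complex.mul_conj, Complex.ofReal_re, Complex.normSq_eq_norm_sq, norm_pow]
  rw [h3] at h ⊢
  rw [h4]
  obtain ⟨m, hm⟩ : ∃ m, m = ‖w‖ ^ 2 := ⟨_, rfl⟩
  rw [← hm] at h ⊢
  have hm0 : 0 < m := by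
    rw [hm]
    have := norm_pos_iff.2 hw
    positivity
  have h1 := P.up
  have h2 := P.pos
  have hx1 : 0 < 1 - x ^ 2 := by nlinarith
  have hκ := P.κ_pos
  have hk := P.eq_κ
  have hmlt : m < 1 - x ^ 2 := by
    by_contra hge
    push Not at hge
    have h5 : κ * (1 - x ^ 2) ≤ κ * m := mul_le_mul_of_nonneg_left hge hκ.le
    rw [hk] at h5
    have h6 : x ^ 2 ≤ (κ * m) ^ 2 := pow_le_pow_left₀ h2.le h5 2
    nlinarith
  have e1 : a * κ - lam * κ ^ 2 = 1 / (1 - x ^ 2) := by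
    rw [P.lam_eq, P.κ_eq, P.a_eq]
    have h4 : x ≠ 0 := h2.ne'
    have h5 : 1 - x ^ 2 ≠ 0 := hx1.ne'
    have h6 : 1 + x ^ 2 ≠ 0 := by positivity
    field_simp
    ring
  have e2 : lam * (κ ^ 2 * m ^ 2) + m - a * (κ * m ^ 2) = m * (1 - m * (a * κ - lam * κ ^ 2)) := by
    ring
  rw [e2, e1]
  apply mul_pos hm0
  rw [mul_one_div, sub_pos, div_lt_one hx1]
  exact hmlt

end Par

end Pool.Agent.V1173.Ext
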