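import Mathlib

/-!
# The inverse of `u + ε u ^ 3`

Helper file for `MP_2eb075_an`.
-/

open Complex Set Filter Topology Metric
open scoped NNReal ENNReal

namespace Pool.Agent.V1173.Ext

/-- the cubic -/
noncomputable def pc (ε : ℝ) (u : ℂ) : ℂ := u + ε * u ^ 3

theorem pc_hasDerivAt (ε : ℝ) (u : ℂ) : HasDerivAt (pc ε) (1 + 3 * ε * u ^ 2) u := by
  have h := (hasDerivAt_id u).add (((hasDerivAt_id u).pow 3).const_mul (ε : ℂ))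
  have e : (1 : ℂ) + (ε : ℂ) * ((3 : ℕ) * id u ^ (3 - 1) * 1) = 1 + 3 * ε * u ^ 2 := by
    simp only [id]
    push_cast
    ring
  rw [e] at h
  exact h

theorem cube_diff {ε : ℝ} (hε : |ε| ≤ 1 / 1000) {u u' : ℂ} (hu : ‖u‖ ≤ 9) (hu' : ‖u'‖ ≤ 9) :
    ‖(ε : ℂ) * u ^ 3 - ε * u' ^ 3‖ ≤ 1 / 4 * ‖u - u'‖ := by
  have e : (ε : ℂ) * u ^ 3 - ε * u' ^ 3 = ε * (u ^ 2 + u * u' + u' ^ 2) * (u - u') := by ring
  rw [e, norm_mul, norm_mul, Complex.norm_real, Real.norm_eq_abs]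
  apply mul_le_mul_of_nonneg_right _ (norm_nonneg _)
  have h1 : ‖u ^ 2 + u * u' + u' ^ 2‖ ≤ 243 := by
    refine (norm_add_le _ _).trans ?_
    have h2 := norm_add_le (u ^ 2) (u * u')
    rw [norm_pow, norm_mul] at h2
    rw [norm_pow]
    have h3 : ‖u‖ ^ 2 ≤ 81 := by nlinarith [norm_nonneg u]
    have h4 : ‖u'‖ ^ 2 ≤ 81 := by nlinarith [norm_nonneg u']
    have h5 : ‖u‖ * ‖u'‖ ≤ 81 := by nlinarith [norm_nonneg u, norm_nonneg u']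
    linarith
  have h2 : 0 ≤ |ε| := abs_nonneg ε
  nlinarith [norm_nonneg (u ^ 2 + u * u' + u' ^ 2)]

theorem pc_lower {ε : ℝ} (hε : |ε| ≤ 1 / 1000) {u u' : ℂ} (hu : ‖u‖ ≤ 9) (hu' : ‖u'‖ ≤ 9) :
    1 / 2 * ‖u - u'‖ ≤ ‖pc ε u - pc ε u'‖ := by
  have h1 := cube_diff hε hu hu'
  have e : pc ε u - pc ε u' = (u - u') + ((ε : ℂ) * u ^ 3 - ε * u' ^ 3) := by
    unfold pc
    ring
  rw [e]
  have h2 := norm_sub_norm_le (u - u') (-((ε : ℂ) * u ^ 3 - ε * u' ^ 3))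
  rw [norm_neg, sub_neg_eq_add] at h2
  linarith [norm_nonneg (u - u')]

theorem exists_inv {ε : ℝ} (hε : |ε| ≤ 1 / 1000) (w : ℂ) (hw : ‖w‖ ≤ 8) :
    ∃ u : ℂ, ‖u‖ ≤ 9 ∧ pc ε u = w := by
  have hmaps : MapsTo (fun u : ℂ => w - ε * u ^ 3) (closedBall 0 9) (closedBall 0 9) := by
    intro u hu
    rw [mem_closedBall_zero_iff] at hu ⊢
    have h1 := cube_diff hε hu (u' := 0) (by simp)
    rw [sub_zero] at h1
    have e : (ε : ℂ) * u ^ 3 - ε * 0 ^ 3 = ε * u ^ 3 := by ring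
    rw [e, norm_mul] at h1
    have h3 : ‖(ε : ℂ) * u ^ 3‖ ≤ 729 / 1000 := by
      rw [norm_mul, norm_pow, Complex.norm_real, Real.norm_eq_abs]
      have h4 : ‖u‖ ^ 3 ≤ 9 ^ 3 := pow_le_pow_left₀ (norm_nonneg _) hu 3
      have h5 : 0 ≤ |ε| := abs_nonneg ε
      nlinarith [pow_nonneg (norm_nonneg u) 3]
    refine (norm_sub_le _ _).trans ?_
    linarith
  have hcon : ContractingWith (1 / 4 : ℝ≥0) (hmaps.restrict _ _ _) := by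
    refine ⟨by
      rw [← NNReal.coe_lt_coe]
      norm_num, ?_⟩
    apply LipschitzWith.of_dist_le_mul
    rintro ⟨u, hu⟩ ⟨u', hu'⟩
    rw [mem_closedBall_zero_iff] at hu hu'
    rw [Subtype.dist_eq, Subtype.dist_eq, dist_eq_norm, dist_eq_norm]
    have h1 := cube_diff hε hu' hu
    have e : (w - (ε : ℂ) * u ^ 3) - (w - ε * u' ^ 3) = (ε : ℂ) * u' ^ 3 - ε * u ^ 3 := by ring
    simp only [MapsTo.val_restrict_apply]
    rw [e, norm_sub_rev u u']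
    refine h1.trans (le_of_eq ?_)
    norm_num
  obtain ⟨u, hu, hfix, -⟩ := ContractingWith.exists_fixedPoint' (isClosed_closedBall.isComplete) hmaps hcon
    (x := 0) (by simp) (edist_ne_top _ _)
  refine ⟨u, mem_closedBall_zero_iff.1 hu, ?_⟩
  have h1 : w - ε * u ^ 3 = u := hfix
  unfold pc
  linear_combination (-1 : ℂ) * h1

/-- the inverse on the disc of radius `8` -/
noncomputable def qc (ε : ℝ) (w : ℂ) : ℂ := by
  classical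
  exact if h : ∃ u : ℂ, ‖u‖ ≤ 9 ∧ pc ε u = w then h.choose else 0

theorem qc_spec {ε : ℝ} (hε : |ε| ≤ 1 / 1000) {w : ℂ} (hw : ‖w‖ ≤ 8) :
    ‖qc ε w‖ ≤ 9 ∧ pc ε (qc ε w) = w := by
  unfold qc
  have h := exists_inv hε w hw
  rw [dif_pos h]
  exact h.choose_spec

theorem qc_lip {ε : ℝ} (hε : |ε| ≤ 1 / 1000) {w w' : ℂ} (hw : ‖w‖ ≤ 8) (hw' : ‖w'‖ ≤ 8) :
    ‖qc ε w - qc ε w'‖ ≤ 2 * ‖w - w'‖ := by
  obtain ⟨h1, h2⟩ := qc_spec hε hw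
  obtain ⟨h3, h4⟩ := qc_spec hε hw'
  have h5 := pc_lower hε h1 h3
  rw [h2, h4] at h5
  linarith

theorem qc_pc {ε : ℝ} (hε : |ε| ≤ 1 / 1000) {u : ℂ} (hu : ‖u‖ ≤ 9) (hw : ‖pc ε u‖ ≤ 8) :
    qc ε (pc ε u) = u := by
  obtain ⟨h1, h2⟩ := qc_spec hε hw
  have h5 := pc_lower hε h1 hu
  rw [h2, sub_self, norm_zero] at h5
  have h6 : ‖qc ε (pc ε u) - u‖ = 0 := by
    linarith [norm_nonneg (qc ε (pc ε u) - u)]
  exact sub_eq_zero.1 (norm_eq_zero.1 h6)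

theorem qc_norm {ε : ℝ} (hε : |ε| ≤ 1 / 1000) {w : ℂ} (hw : ‖w‖ ≤ 8) : ‖qc ε w‖ ≤ 2 * ‖w‖ := by
  have h := qc_lip hε hw (w' := 0) (by simp)
  have h0 : qc ε 0 = 0 := by
    have h1 := qc_pc hε (u := 0) (by simp) (by simp [pc])
    simpa [pc] using h1
  rwa [h0, sub_zero, sub_zero] at h

theorem qc_continuousAt {ε : ℝ} (hε : |ε| ≤ 1 / 1000) {w : ℂ} (hw : ‖w‖ < 8) :
    ContinuousAt (qc ε) w := by
  have h1 : ∀ᶠ w' in 𝓝 w, ‖w'‖ ≤ 8 := by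
    have h2 : ∀ᶠ w' in 𝓝 w, ‖w'‖ < 8 := (continuous_norm.tendsto w).eventually_lt_const hw
    filter_upwards [h2] with w' h
    exact h.le
  rw [Metric.continuousAt_iff']
  intro δ hδ
  filter_upwards [h1, Metric.ball_mem_nhds w (half_pos hδ)] with w' h2 h3
  rw [dist_eq_norm]
  have h4 := qc_lip hε h2 hw.le
  rw [mem_ball, dist_eq_norm] at h3
  linarith

theorem pd_ne {ε : ℝ} (hε : |ε| ≤ 1 / 1000) {u : ℂ} (hu : ‖u‖ ≤ 9) :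
    1 / 2 ≤ ‖1 + 3 * (ε : ℂ) * u ^ 2‖ := by
  have h1 : ‖3 * (ε : ℂ) * u ^ 2‖ ≤ 1 / 4 := by
    rw [norm_mul, norm_mul, norm_pow, Complex.norm_real, Real.norm_eq_abs]
    have h4 : ‖u‖ ^ 2 ≤ 9 ^ 2 := pow_le_pow_left₀ (norm_nonneg _) hu 2
    have h5 : 0 ≤ |ε| := abs_nonneg ε
    have h6 : ‖(3 : ℂ)‖ = 3 := by simp
    rw [h6]
    nlinarith [pow_nonneg (norm_nonneg u) 2]
  have h2 := norm_sub_norm_le (1 : ℂ) (-(3 * (ε : ℂ) * u ^ 2))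
  rw [norm_neg, sub_neg_eq_add, norm_one] at h2
  linarith

theorem qc_hasDerivAt {ε : ℝ} (hε : |ε| ≤ 1 / 1000) {w : ℂ} (hw : ‖w‖ < 8) :
    HasDerivAt (qc ε) (1 + 3 * ε * (qc ε w) ^ 2)⁻¹ w := by
  have h0 := qc_spec hε hw.le
  apply HasDerivAt.of_local_left_inverse (qc_continuousAt hε hw) (pc_hasDerivAt ε (qc ε w))
  · intro h
    have h1 := pd_ne hε h0.1
    rw [h, norm_zero] at h1
    linarith
  · have h2 : ∀ᶠ w' in 𝓝 w, ‖w'‖ < 8 := (continuous_norm.tendsto w).eventually_lt_const hw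
    filter_upwards [h2] with w' h
    exact (qc_spec hε h.le).2

end Pool.Agent.V1173.Ext
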