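import Pool.Agent.V1173.Ext.Alg
import Pool.Agent.V1173.Ext.Cub

/-!
# The flow

Helper file for `MP_2eb075_an`.
-/

open Complex Set Filter Topology Metric

namespace Pool.Agent.V1173.Ext

/-- the first component of the vector field -/
noncomputable def H1 (lam a κ d ε : ℝ) (z w : ℂ) : ℂ :=
  lam * z - a * w ^ 2 + ε * (z - κ * w ^ 2) ^ 2 / (1 + 3 * ε * (z - κ * w ^ 2) ^ 2) *
    (3 * d * w ^ 2 - 2 * lam * (z - κ * w ^ 2))

namespace Par

variable {x lam a κ d : ℝ} (P : Par x lam a κ d)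
include P

theorem u_le {z w : ℂ} (h : ‖z‖ ^ 2 + ‖w‖ ^ 2 ≤ 1) : ‖z - κ * w ^ 2‖ ≤ 2 := by
  have h1 := P.κ_lt
  have h2 := P.κ_pos
  have hz : ‖z‖ ≤ 1 := by nlinarith [norm_nonneg z, sq_nonneg ‖w‖]
  have hw : ‖w‖ ^ 2 ≤ 1 := by nlinarith [sq_nonneg ‖z‖]
  refine (norm_sub_le _ _).trans ?_
  rw [norm_mul, norm_pow, Complex.norm_real, Real.norm_eq_abs, abs_of_pos h2]
  nlinarith [sq_nonneg ‖w‖]

theorem pos_form {ε : ℝ} (hε : |ε| ≤ 1 / 1000) {z w : ℂ} (h : ‖z‖ ^ 2 + ‖w‖ ^ 2 < 1)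
    (h0 : z ≠ 0 ∨ w ≠ 0) : 0 < (starRingEnd ℂ z * H1 lam a κ d ε z w).re + ‖w‖ ^ 2 := by
  have hu := P.u_le h.le
  obtain ⟨u, hud⟩ : ∃ u : ℂ, u = z - κ * w ^ 2 := ⟨_, rfl⟩
  obtain ⟨q, hq⟩ : ∃ q : ℂ, q = ε * u ^ 2 / (1 + 3 * ε * u ^ 2) *
    (3 * d * w ^ 2 - 2 * lam * u) := ⟨_, rfl⟩
  have e1 : starRingEnd ℂ z * H1 lam a κ d ε z w =
      (lam : ℂ) * (starRingEnd ℂ z * z) - a * (starRingEnd ℂ z * w ^ 2) +
        starRingEnd ℂ z * q := by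
    rw [hq, hud]
    unfold H1
    ring
  have e2 : (starRingEnd ℂ z * H1 lam a κ d ε z w).re + ‖w‖ ^ 2 =
      (lam * ‖z‖ ^ 2 + ‖w‖ ^ 2 - a * (starRingEnd ℂ z * w ^ 2).re) +
        (starRingEnd ℂ z * q).re := by
    rw [e1, mul_comm (starRingEnd ℂ z) z, Complex.mul_conj, Complex.normSq_eq_norm_sq,
      Complex.add_re, Complex.sub_re, Complex.re_ofReal_mul, Complex.re_ofReal_mul,
      Complex.ofReal_re]
    ring
  rw [e2]
  rw [← hud] at hu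
  by_cases hu0 : u = 0
  · have hq0 : q = 0 := by rw [hq, hu0]; simp
    rw [hq0, mul_zero, Complex.zero_re, add_zero]
    have hz : z = κ * w ^ 2 := by
      rw [hu0] at hud
      exact (sub_eq_zero.1 hud.symm)
    have hw : w ≠ 0 := by
      rcases h0 with h0 | h0
      · rintro rfl
        apply h0
        rw [hz]
        simp
      · exact h0
    rw [hz] at h ⊢
    exact P.curve w h hw
  · have hkey := P.key z w h.le
    rw [← hud] at hkey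
    have hz : ‖z‖ ≤ 1 := by nlinarith [norm_nonneg z, sq_nonneg ‖w‖]
    have hw : ‖w‖ ^ 2 ≤ 1 := by nlinarith [sq_nonneg ‖z‖]
    have hden := pd_ne hε (u := u) (by linarith)
    have hqn : ‖q‖ ≤ 1 / 4 * ‖u‖ ^ 2 := by
      rw [hq, norm_mul, norm_div, norm_mul, norm_pow, Complex.norm_real, Real.norm_eq_abs]
      have h1 : ‖(3 * d * w ^ 2 - 2 * lam * u : ℂ)‖ ≤ 24 := by
        refine (norm_sub_le _ _).trans ?_
        have h2 := P.d_lt
        have h3 := P.d_pos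
        have h4 := P.lt_two
        have h5 := P.one_le
        rw [norm_mul, norm_mul, norm_mul, norm_mul, norm_pow, Complex.norm_real,
          Complex.norm_real, Real.norm_eq_abs, Real.norm_eq_abs, abs_of_pos h3,
          abs_of_pos (by linarith : (0 : ℝ) < lam)]
        have h6 : ‖(3 : ℂ)‖ = 3 := by simp
        have h7 : ‖(2 : ℂ)‖ = 2 := by simp
        rw [h6, h7]
        nlinarith [norm_nonneg u, sq_nonneg ‖w‖]
      have h2 : |ε| * ‖u‖ ^ 2 / ‖1 + 3 * (ε : ℂ) * u ^ 2‖ ≤ 1 / 500 * ‖u‖ ^ 2 := by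
        rw [div_le_iff₀ (by linarith)]
        have h3 : |ε| * ‖u‖ ^ 2 ≤ 1 / 1000 * ‖u‖ ^ 2 :=
          mul_le_mul_of_nonneg_right hε (sq_nonneg _)
        have h4 : 1 / 500 * ‖u‖ ^ 2 * (1 / 2) ≤ 1 / 500 * ‖u‖ ^ 2 * ‖1 + 3 * (ε : ℂ) * u ^ 2‖ :=
          mul_le_mul_of_nonneg_left hden (by positivity)
        linarith
      have h3 : (0 : ℝ) ≤ 1 / 500 * ‖u‖ ^ 2 := by positivity
      calc |ε| * ‖u‖ ^ 2 / ‖1 + 3 * (ε : ℂ) * u ^ 2‖ * ‖(3 * d * w ^ 2 - 2 * lam * u : ℂ)‖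
          ≤ 1 / 500 * ‖u‖ ^ 2 * 24 := mul_le_mul h2 h1 (norm_nonneg _) h3
        _ ≤ 1 / 4 * ‖u‖ ^ 2 := by nlinarith [sq_nonneg ‖u‖]
    have hre : -(1 / 4 * ‖u‖ ^ 2) ≤ (starRingEnd ℂ z * q).re := by
      have h1 := Complex.abs_re_le_norm (starRingEnd ℂ z * q)
      rw [norm_mul, RCLike.norm_conj] at h1
      have h2 : ‖z‖ * ‖q‖ ≤ 1 * (1 / 4 * ‖u‖ ^ 2) := mul_le_mul hz hqn (norm_nonneg _) zero_le_one
      have h3 := neg_abs_le ((starRingEnd ℂ z * q).re)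
      linarith
    have hup : 0 < ‖u‖ ^ 2 := by
      have := norm_pos_iff.2 hu0
      positivity
    linarith

end Par

/-- `e ^ (-t) w` -/
noncomputable def V2 (w : ℂ) (t : ℝ) : ℂ := (Real.exp (-t) : ℝ) * w

/-- `W(t)` -/
noncomputable def WW (lam c ε κ : ℝ) (z w : ℂ) (t : ℝ) : ℂ :=
  (Real.exp (-(lam * t)) : ℝ) * (pc ε (z - κ * w ^ 2) + c * w ^ 2) - c * V2 w t ^ 2

/-- the first component of the flow -/
noncomputable def V1 (lam c ε κ : ℝ) (z w : ℂ) (t : ℝ) : ℂ :=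
  qc ε (WW lam c ε κ z w t) + κ * V2 w t ^ 2

theorem V2_hasDerivAt (w : ℂ) (t : ℝ) : HasDerivAt (V2 w) (-(V2 w t)) t := by
  have h1 : HasDerivAt (fun t : ℝ => Real.exp (-t)) (Real.exp (-t) * (-1)) t :=
    (hasDerivAt_neg t).exp
  have h2 := (h1.ofReal_comp).mul_const w
  have e : ((Real.exp (-t) * (-1) : ℝ) : ℂ) * w = -(V2 w t) := by
    unfold V2
    push_cast
    ring
  rw [e] at h2
  exact h2

theorem V2_zero (w : ℂ) : V2 w 0 = w := by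
  unfold V2
  simp

theorem WW_zero (lam c ε κ : ℝ) (z w : ℂ) : WW lam c ε κ z w 0 = pc ε (z - κ * w ^ 2) := by
  unfold WW
  rw [V2_zero]
  simp

theorem WW_hasDerivAt (lam c ε κ : ℝ) (z w : ℂ) (t : ℝ) :
    HasDerivAt (WW lam c ε κ z w)
      (-lam * WW lam c ε κ z w t + ((2 - lam) * c : ℝ) * V2 w t ^ 2) t := by
  have h1 : HasDerivAt (fun t : ℝ => Real.exp (-(lam * t))) (Real.exp (-(lam * t)) * (-(lam * 1)))
      t := (((hasDerivAt_id t).const_mul lam).neg).exp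
  have h2 := (h1.ofReal_comp).mul_const (pc ε (z - κ * w ^ 2) + c * w ^ 2)
  have h3 := ((V2_hasDerivAt w t).pow 2).const_mul (c : ℂ)
  have h4 := h2.sub h3
  refine h4.congr_deriv ?_
  unfold WW
  push_cast
  ring

end Pool.Agent.V1173.Ext
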