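import Pool.Agent.V1173.Ext.Alg

/-!
# The parameters

Helper file for `MP_2eb075_an`.
-/

open Complex

namespace Pool.Agent.V1173.Ext

/-- the set whose maximum is `a₀` -/
def ASet (lam : ℝ) : Set ℝ :=
  {a | 0 < a ∧ ∀ x y : ℝ, 0 ≤ x → 0 ≤ y → x ^ 2 + y ^ 2 ≤ 1 →
    0 ≤ lam * x ^ 2 + y ^ 2 - a * x * y ^ 2}

theorem exists_par (lam : ℝ) (h1 : 1 ≤ lam) (h2 : lam < 2) : ∃ x a κ d, Par x lam a κ d := by
  obtain ⟨R, hR⟩ : ∃ R, R = Real.sqrt (lam ^ 2 + 8 * lam) := ⟨_, rfl⟩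
  have hR2 : R ^ 2 = lam ^ 2 + 8 * lam := by
    rw [hR, Real.sq_sqrt (by positivity)]
  have hR0 : 0 ≤ R := by rw [hR]; exact Real.sqrt_nonneg _
  have hR3 : 3 ≤ R := by
    by_contra h
    push Not at h
    nlinarith
  have hR5 : R < 9 / 2 := by
    by_contra h
    push Not at h
    nlinarith
  obtain ⟨X, hX⟩ : ∃ X, X = 2 / (lam + 2 + R) := ⟨_, rfl⟩
  have hden : 0 < lam + 2 + R := by linarith
  have hXp : 0 < X := by rw [hX]; positivity
  have hXd : X * (lam + 2 + R) = 2 := by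
    rw [hX]
    field_simp
  have hXu : X ≤ 1 / 3 := by
    rw [hX, div_le_div_iff₀ hden (by norm_num)]
    linarith
  have hXl : 1 / 5 < X := by
    rw [hX, div_lt_div_iff₀ (by norm_num) hden]
    linarith
  have hquad : (lam - 1) * X ^ 2 + (lam + 2) * X - 1 = 0 := by
    have h3 : (lam + 2 + R) ^ 2 * ((lam - 1) * X ^ 2 + (lam + 2) * X - 1) = 0 := by
      have e : (lam + 2 + R) ^ 2 * ((lam - 1) * X ^ 2 + (lam + 2) * X - 1) =
          (lam - 1) * (X * (lam + 2 + R)) ^ 2 + (lam + 2) * (lam + 2 + R) * (X * (lam + 2 + R)) -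
            (lam + 2 + R) ^ 2 := by ring
      rw [e, hXd]
      nlinarith
    rcases mul_eq_zero.1 h3 with h4 | h4
    · exact absurd h4 (by positivity)
    · exact h4
  obtain ⟨x, hx⟩ : ∃ x, x = Real.sqrt X := ⟨_, rfl⟩
  have hxx : x ^ 2 = X := by rw [hx, Real.sq_sqrt hXp.le]
  have hxp : 0 < x := by rw [hx]; exact Real.sqrt_pos.2 hXp
  have hx1 : 1 - x ^ 2 ≠ 0 := by rw [hxx]; linarith
  refine ⟨x, 2 / (x * (1 + x ^ 2)), x / (1 - x ^ 2),
    (2 - lam) * (x / (1 - x ^ 2)) + 2 / (x * (1 + x ^ 2)), ?_⟩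
  refine ⟨hxp, by rw [hxx]; exact hXu, by rw [hxx]; exact hXl, ?_, ?_, ?_, rfl, h1, h2⟩
  · have : x * (1 + x ^ 2) ≠ 0 := by positivity
    field_simp
  · field_simp
  · rw [hxx]
    nlinarith

theorem Par.isGreatest {x lam a κ d : ℝ} (P : Par x lam a κ d) : IsGreatest (ASet lam) a := by
  constructor
  · refine ⟨P.a_pos, fun s y hs hy hsy => ?_⟩
    have h := P.ball_ineq s (y ^ 2) hs (sq_nonneg y) hsy
    nlinarith [sq_nonneg (s - κ * y ^ 2)]
  · rintro a' ⟨-, h⟩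
    have h1 := P.up
    have h2 := P.pos
    have hx1 : 0 < 1 - x ^ 2 := by nlinarith
    have h3 := h x (Real.sqrt (1 - x ^ 2)) h2.le (Real.sqrt_nonneg _) (by
      rw [Real.sq_sqrt hx1.le]
      linarith)
    rw [Real.sq_sqrt hx1.le] at h3
    have e : lam * x ^ 2 + (1 - x ^ 2) = a * x * (1 - x ^ 2) := by
      rw [P.lam_eq, P.a_eq]
      have h4 : x ≠ 0 := h2.ne'
      have h6 : 1 + x ^ 2 ≠ 0 := by positivity
      field_simp
      ring
    rw [e] at h3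
    have h4 : 0 ≤ (a - a') * (x * (1 - x ^ 2)) := by nlinarith
    have h5 := nonneg_of_mul_nonneg_left h4 (by positivity)
    linarith

end Pool.Agent.V1173.Ext
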